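import Mathlib
import Pool.Agent.Y269.RK.Stm

/-!
# RK-EX, part 1: the retraction of the cube onto the simplex `TT m q`, and coordinates
-/

set_option autoImplicit false

namespace Pool.Agent.Y232.RK

open Pool.Agent.Helper133.BT Pool.Agent.Helper133.BU Pool.Agent.Y269.RK

/-- first step: scale down to sum `≤ q` -/
noncomputable def R1 {m : ℕ} (q : ℕ) (t : Fin m → ℝ) : Fin m → ℝ :=
  fun c => (q / max (q : ℝ) (∑ i, t i)) * t c

/-- second step: push up to sum `≥ q` -/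
noncomputable def R2 {m : ℕ} (q : ℕ) (u : Fin m → ℝ) : Fin m → ℝ :=
  fun c => 1 - (((m : ℝ) - q) / max ((m : ℝ) - q) (m - ∑ i, u i)) * (1 - u c)

/-- the retraction -/
noncomputable def RR {m : ℕ} (q : ℕ) (t : Fin m → ℝ) : Fin m → ℝ := R2 q (R1 q t)

theorem R1_cont {m q : ℕ} (hq : 0 < q) : Continuous (R1 q : (Fin m → ℝ) → Fin m → ℝ) := by
  have hq' : (0 : ℝ) < q := by exact_mod_cast hq
  unfold R1
  refine continuous_pi fun c => Continuous.mul (Continuous.div continuous_const ?_ ?_) (continuous_apply c)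
  · exact continuous_const.max (continuous_finsetSum _ fun i _ => continuous_apply i)
  · intro t
    exact (lt_of_lt_of_le hq' (le_max_left _ _)).ne'

theorem R2_cont {m q : ℕ} (hq : q < m) : Continuous (R2 q : (Fin m → ℝ) → Fin m → ℝ) := by
  have hq' : (0 : ℝ) < (m : ℝ) - q := by
    have : (q : ℝ) < m := by exact_mod_cast hq
    linarith
  unfold R2
  refine continuous_pi fun c => continuous_const.sub (Continuous.mul
    (Continuous.div continuous_const ?_ ?_) (continuous_const.sub (continuous_apply c)))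
  · exact continuous_const.max (continuous_const.sub
      (continuous_finsetSum _ fun i _ => continuous_apply i))
  · intro t
    exact (lt_of_lt_of_le hq' (le_max_left _ _)).ne'

theorem RR_cont {m q : ℕ} (hq0 : 0 < q) (hq : q < m) :
    Continuous (RR q : (Fin m → ℝ) → Fin m → ℝ) := (R2_cont hq).comp (R1_cont hq0)

theorem R1_spec {m q : ℕ} (hq : 0 < q) (t : Fin m → ℝ) (ht : ∀ c, 0 ≤ t c ∧ t c ≤ 1) :
    (∀ c, 0 ≤ R1 q t c ∧ R1 q t c ≤ 1) ∧ ∑ c, R1 q t c ≤ q ∧
    ((∑ c, t c) ≤ q → R1 q t = t) ∧ ((q : ℝ) ≤ ∑ c, t c → ∑ c, R1 q t c = q) := by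
  have hq' : (0 : ℝ) < q := by exact_mod_cast hq
  have hmax : 0 < max (q : ℝ) (∑ i, t i) := lt_of_lt_of_le hq' (le_max_left _ _)
  have hr0 : 0 ≤ q / max (q : ℝ) (∑ i, t i) := div_nonneg hq'.le hmax.le
  have hr1 : q / max (q : ℝ) (∑ i, t i) ≤ 1 := (div_le_one hmax).mpr (le_max_left _ _)
  have hsum : ∑ c, R1 q t c = (q / max (q : ℝ) (∑ i, t i)) * ∑ c, t c := by
    simp only [R1, Finset.mul_sum]
  refine ⟨fun c => ⟨mul_nonneg hr0 (ht c).1, ?_⟩, ?_, ?_, ?_⟩
  · calc R1 q t c ≤ 1 * 1 := mul_le_mul hr1 (ht c).2 (ht c).1 zero_le_one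
      _ = 1 := one_mul 1
  · rw [hsum, div_mul_eq_mul_div, div_le_iff₀ hmax]
    exact mul_le_mul_of_nonneg_left (le_max_right _ _) hq'.le
  · intro h
    funext c
    simp only [R1]
    rw [max_eq_left h, div_self hq'.ne', one_mul]
  · intro h
    rw [hsum, max_eq_right h, div_mul_cancel₀]
    exact (lt_of_lt_of_le hq' h).ne'

theorem R2_spec {m q : ℕ} (hq : q < m) (u : Fin m → ℝ) (hu : ∀ c, 0 ≤ u c ∧ u c ≤ 1)
    (hus : ∑ c, u c ≤ q) :
    R2 q u ∈ TT m q ∧ ((∑ c, u c) = q → R2 q u = u) ∧ (∀ c, u c = 1 → R2 q u c = 1) := by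
  have hq' : (0 : ℝ) < (m : ℝ) - q := by
    have : (q : ℝ) < m := by exact_mod_cast hq
    linarith
  have hmax : max ((m : ℝ) - q) (m - ∑ i, u i) = m - ∑ i, u i := max_eq_right (by linarith)
  have hpos : 0 < (m : ℝ) - ∑ i, u i := by linarith
  have hr0 : 0 ≤ ((m : ℝ) - q) / (m - ∑ i, u i) := div_nonneg hq'.le hpos.le
  have hr1 : ((m : ℝ) - q) / (m - ∑ i, u i) ≤ 1 := (div_le_one hpos).mpr (by linarith)
  have hval : ∀ c, R2 q u c = 1 - (((m : ℝ) - q) / (m - ∑ i, u i)) * (1 - u c) := by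
    intro c
    simp only [R2, hmax]
  refine ⟨⟨fun c => ?_, ?_⟩, ?_, ?_⟩
  · rw [hval]
    have h1 : 0 ≤ 1 - u c := by linarith [(hu c).2]
    have h2 : 1 - u c ≤ 1 := by linarith [(hu c).1]
    have h3 : (((m : ℝ) - q) / (m - ∑ i, u i)) * (1 - u c) ≤ 1 * 1 :=
      mul_le_mul hr1 h2 h1 zero_le_one
    have h4 : 0 ≤ (((m : ℝ) - q) / (m - ∑ i, u i)) * (1 - u c) := mul_nonneg hr0 h1
    constructor <;> linarith
  · have h1 : ∑ c, R2 q u c = ∑ c : Fin m, (1 : ℝ) -
        (((m : ℝ) - q) / (m - ∑ i, u i)) * ∑ c, (1 - u c) := by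
      rw [Finset.mul_sum, ← Finset.sum_sub_distrib]
      exact Finset.sum_congr rfl fun c _ => hval c
    rw [h1, Finset.sum_sub_distrib]
    simp only [Finset.sum_const, Finset.card_univ, Fintype.card_fin, nsmul_eq_mul, mul_one]
    rw [div_mul_cancel₀ _ hpos.ne']
    ring
  · intro h
    funext c
    rw [hval, h, div_self hq'.ne']
    ring
  · intro c hc
    rw [hval, hc]
    ring

theorem RR_mem {m q : ℕ} (hq0 : 0 < q) (hq : q < m) (t : Fin m → ℝ)
    (ht : ∀ c, 0 ≤ t c ∧ t c ≤ 1) : RR q t ∈ TT m q :=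
  (R2_spec hq _ (R1_spec hq0 t ht).1 (R1_spec hq0 t ht).2.1).1

theorem RR_fix {m q : ℕ} (hq0 : 0 < q) (hq : q < m) (t : Fin m → ℝ) (ht : t ∈ TT m q) :
    RR q t = t := by
  have h1 : R1 q t = t := (R1_spec hq0 t ht.1).2.2.1 ht.2.le
  have h2 := (R2_spec hq t ht.1 ht.2.le).2.1 ht.2
  rw [RR, h1, h2]

theorem RR_one {m q : ℕ} (hq0 : 0 < q) (hq : q < m) (t : Fin m → ℝ)
    (ht : ∀ c, 0 ≤ t c ∧ t c ≤ 1) (hs : ∑ c, t c ≤ q) (c : Fin m) (hc : t c = 1) :
    RR q t c = 1 := by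
  have h1 : R1 q t = t := (R1_spec hq0 t ht).2.2.1 hs
  rw [RR, h1]
  exact (R2_spec hq t ht hs).2.2 c hc

theorem TT_compact (m q : ℕ) : IsCompact (TT m q) := by
  have h1 : IsCompact (Set.pi Set.univ fun _ : Fin m => Set.Icc (0 : ℝ) 1) :=
    isCompact_univ_pi fun _ => isCompact_Icc
  have h2 : IsClosed {t : Fin m → ℝ | ∑ c, t c = q} :=
    isClosed_eq (continuous_finsetSum _ fun i _ => continuous_apply i) continuous_const
  have h3 : TT m q = (Set.pi Set.univ fun _ : Fin m => Set.Icc (0 : ℝ) 1) ∩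
      {t : Fin m → ℝ | ∑ c, t c = q} := by
    ext t
    simp only [TT, Set.mem_ofPred_eq, Set.mem_inter_iff, Set.mem_pi, Set.mem_univ, forall_true_left,
      Set.mem_Icc]
  rw [h3]
  exact h1.inter_right h2

/-! ### coordinates -/

/-- coordinate `j` of block `i` as a real number, zero if there is no such coordinate -/
def co {n : ℕ → ℕ} (v : Om n) (i j : ℕ) : ℝ := if h : j < n i + 1 then v i ⟨j, h⟩ else 0

theorem co_cont {n : ℕ → ℕ} (i j : ℕ) : Continuous fun v : Om n => co v i j := by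
  unfold co
  by_cases h : j < n i + 1
  · simp only [h, dif_pos]
    exact (continuous_apply (⟨j, h⟩ : Fin (n i + 1))).comp (continuous_apply i)
  · simp only [h, dif_neg, not_false_eq_true]
    exact continuous_const

theorem co_flp {n : ℕ → ℕ} (k : ℕ) (v : Om n) (i j : ℕ) :
    co (flp n k v) i j = if i = k then -co v i j else co v i j := by
  by_cases hik : i = k
  · subst hik
    rw [if_pos rfl]
    unfold co flp
    by_cases h : j < n i + 1
    · simp [h]
    · simp [h]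
  · rw [if_neg hik]
    unfold co flp
    rw [Function.update_of_ne hik]

theorem sum_co {n : ℕ → ℕ} (v : Om n) (i a : ℕ) (h : n i = a) :
    ∑ j : Fin (a + 1), |co v i j| = ∑ j : Fin (n i + 1), |v i j| := by
  subst h
  refine Finset.sum_congr rfl fun j _ => ?_
  unfold co
  rw [dif_pos j.2]

end Pool.Agent.Y232.RK
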