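import Mathlib
import Pool.Agent.Y232.RK.Retr

/-!
# RK-EX, part 2: the system of equations for a fixed threshold `θ`
-/

set_option autoImplicit false

namespace Pool.Agent.Y232.RK

open Pool.Agent.Helper133.BT Pool.Agent.Helper133.BU Pool.Agent.Y269.RK
open scoped ComplexOrder

section

variable {m M K0 q : ℕ} (par : ℕ → Fin m → ZMod 2)

/-- dimensions of the extended system: `m` circles, then the spheres -/
def nn (m : ℕ) (n : ℕ → ℕ) (i : ℕ) : ℕ := if i < m then 1 else n (i - m)

theorem nn_lt {n : ℕ → ℕ} {i : ℕ} (h : i < m) : nn m n i = 1 := if_pos h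

theorem nn_add {n : ℕ → ℕ} (k : ℕ) : nn m n (m + k) = n k := by
  unfold nn
  rw [if_neg (by omega), Nat.add_sub_cancel_left]

/-- the sphere coordinates -/
def yv {n : ℕ → ℕ} (v : Om (nn m n)) : Om n := fun k j => co v (m + k) j

/-- the parameters -/
def tv {n : ℕ → ℕ} (v : Om (nn m n)) : Fin m → ℝ := fun c => |co v c 1|

theorem yv_cont {n : ℕ → ℕ} : Continuous (yv : Om (nn m n) → Om n) :=
  continuous_pi fun k => continuous_pi fun j => co_cont (m + k) j

theorem tv_cont {n : ℕ → ℕ} : Continuous (tv : Om (nn m n) → Fin m → ℝ) :=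
  continuous_pi fun c => (co_cont (c : ℕ) 1).abs

theorem yv_mem {n : ℕ → ℕ} {v : Om (nn m n)} (hv : v ∈ PP (nn m n)) : yv v ∈ PP n := by
  intro k
  have h1 := hv (m + k)
  simp only [K, Set.mem_ofPred_eq] at h1 ⊢
  rw [← h1]
  exact sum_co v (m + k) (n k) (nn_add k)

theorem circle {n : ℕ → ℕ} {v : Om (nn m n)} (hv : v ∈ PP (nn m n)) (c : Fin m) :
    |co v c 0| + |co v c 1| = 1 := by
  have h1 := hv (c : ℕ)
  simp only [K, Set.mem_ofPred_eq] at h1
  rw [← sum_co v (c : ℕ) 1 (nn_lt c.2), Fin.sum_univ_two] at h1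
  exact h1

theorem tv_mem {n : ℕ → ℕ} {v : Om (nn m n)} (hv : v ∈ PP (nn m n)) (c : Fin m) :
    0 ≤ tv v c ∧ tv v c ≤ 1 := by
  have h1 := circle hv c
  have h2 := abs_nonneg (co v (c : ℕ) 0)
  exact ⟨abs_nonneg _, by unfold tv; linarith⟩

theorem tv_flp {n : ℕ → ℕ} (k : ℕ) (v : Om (nn m n)) : tv (flp (nn m n) k v) = tv v := by
  funext c
  unfold tv
  rw [co_flp]
  split_ifs
  · rw [abs_neg]
  · rfl

theorem yv_flp_lt {n : ℕ → ℕ} {k : ℕ} (hk : k < m) (v : Om (nn m n)) :
    yv (flp (nn m n) k v) = yv v := by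
  funext k' j
  unfold yv
  rw [co_flp, if_neg (by omega)]

theorem yv_flp_ge {n : ℕ → ℕ} (k : ℕ) (v : Om (nn m n)) :
    yv (flp (nn m n) (m + k) v) = flp n k (yv v) := by
  funext k' j
  unfold yv flp
  by_cases h : k' = k
  · subst h
    have h1 := co_flp (m + k') v (m + k') j
    rw [if_pos rfl] at h1
    unfold flp at h1
    rw [h1]
    simp
  · have h1 := co_flp (m + k) v (m + k') j
    rw [if_neg (by omega)] at h1
    unfold flp at h1
    rw [h1, Function.update_of_ne h]

/-- the equations: pairs of labels with leading index `k` -/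
def SS (m M K0 : ℕ) (par : ℕ → Fin m → ZMod 2) (k : ℕ) :
    Finset (Fin m × Fin m × Fin M × Fin M × Bool) :=
  Finset.univ.filter fun x => x.1 < x.2.1 ∧ lead par K0 x.1 x.2.1 = k

theorem SS_card (m M K0 : ℕ) (par : ℕ → Fin m → ZMod 2) (k : ℕ) :
    (SS m M K0 par k).card ≤ nsp par K0 M k := by
  unfold nsp
  refine le_trans (le_of_eq ?_) (le_max_right _ _)
  have h : SS m M K0 par k = ((Finset.univ.filter fun p : Fin m × Fin m =>
      p.1 < p.2 ∧ lead par K0 p.1 p.2 = k) ×ˢ (Finset.univ : Finset (Fin M × Fin M × Bool))).map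
      (Equiv.prodAssoc _ _ _).toEmbedding := by
    ext ⟨c, c', x⟩
    simp [SS]
  rw [h, Finset.card_map, Finset.card_product]
  simp only [Finset.card_univ, Fintype.card_prod, Fintype.card_fin, Fintype.card_bool]
  ring

/-- enumeration of the equations -/
noncomputable def en (m M K0 : ℕ) (par : ℕ → Fin m → ZMod 2) (k r : ℕ) :
    Option (Fin m × Fin m × Fin M × Fin M × Bool) := (SS m M K0 par k).toList[r]?

theorem en_mem {k r : ℕ} {x : Fin m × Fin m × Fin M × Fin M × Bool}
    (h : en m M K0 par k r = some x) : x.1 < x.2.1 ∧ lead par K0 x.1 x.2.1 = k := by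
  unfold en at h
  have h1 := List.mem_of_getElem? h
  rw [Finset.mem_toList] at h1
  simpa [SS] using h1

theorem exists_en {k : ℕ} {x : Fin m × Fin m × Fin M × Fin M × Bool}
    (hx : x.1 < x.2.1) (hk : lead par K0 x.1 x.2.1 = k) :
    ∃ r < nsp par K0 M k, en m M K0 par k r = some x := by
  have h1 : x ∈ (SS m M K0 par k).toList := by
    rw [Finset.mem_toList]
    simp [SS, hx, hk]
  obtain ⟨r, hr, h2⟩ := List.getElem_of_mem h1
  refine ⟨r, ?_, ?_⟩
  · rw [Finset.length_toList] at hr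
    exact lt_of_lt_of_le hr (SS_card m M K0 par k)
  · unfold en
    rw [List.getElem?_eq_getElem hr, h2]

theorem lead_lt {c c' : Fin m} (h : ∃ k < K0, par k c ≠ par k c') :
    lead par K0 c c' < K0 := by
  obtain ⟨k, hk, -⟩ := h
  have := Nat.findGreatest_le (P := fun k => par k c ≠ par k c') (K0 - 1)
  unfold lead
  omega

theorem lead_ne {c c' : Fin m} (h : ∃ k < K0, par k c ≠ par k c') :
    par (lead par K0 c c') c ≠ par (lead par K0 c c') c' := by
  obtain ⟨k, hk, h1⟩ := h
  exact Nat.findGreatest_spec (P := fun k => par k c ≠ par k c') (m := k) (n := K0 - 1)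
    (by omega) h1

theorem lead_gt {c c' : Fin m} {k : ℕ} (h : lead par K0 c c' < k) (hk : k < K0) :
    par k c = par k c' := by
  have := Nat.findGreatest_is_greatest (P := fun k => par k c ≠ par k c') h (by omega)
  simpa using this

theorem zmod2_add {a b : ZMod 2} (h : a ≠ b) : a + b = 1 := by
  revert a b; decide

/-- parity of flips for labels -/
def pf (m : ℕ) (par : ℕ → Fin m → ZMod 2) (j : ℕ) (c c' : Fin m) : ZMod 2 :=
  if j < m then 0 else par (j - m) c + par (j - m) c'

/-- parities -/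
noncomputable def pp (m M K0 : ℕ) (par : ℕ → Fin m → ZMod 2) (i r j : ℕ) : ZMod 2 :=
  if j = i then 1 else if i < j then 0 else if i < m then 0 else
    match en m M K0 par (i - m) r with
    | none => 0
    | some x => pf m par j x.1 x.2.1

/-- real or imaginary part -/
def rim (e : Bool) (z : ℂ) : ℝ := if e then z.re else z.im

theorem rim_cont (e : Bool) : Continuous (rim e) := by
  cases e
  · exact Complex.continuous_im
  · exact Complex.continuous_re

theorem rim_mul (e : Bool) (s : ℝ) (z : ℂ) : rim e (s * z) = s * rim e z := by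
  cases e <;> simp [rim]

variable (Γ : (Fin m → ℝ) → Om (nsp par K0 M) → Matrix (Fin m × Fin M) (Fin m × Fin M) ℂ)

/-- the matrix in the new coordinates -/
noncomputable def GG' (q : ℕ) (v : Om (nn m (nsp par K0 M))) :
    Matrix (Fin m × Fin M) (Fin m × Fin M) ℂ := Γ (RR q (tv v)) (yv v)

/-- the defect -/
noncomputable def ph (q : ℕ) (θ : ℝ) (v : Om (nn m (nsp par K0 M))) (c : Fin m) : ℝ :=
  max 0 (1 - (dblk (GG' par Γ q v) c).det.re / θ)

/-- the wanted parameter -/
noncomputable def Ps (q : ℕ) (θ : ℝ) (v : Om (nn m (nsp par K0 M))) (c : Fin m) : ℝ :=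
  min 1 (q * ph par Γ q θ v c / max 1 (∑ c', ph par Γ q θ v c'))

/-- the equations -/
noncomputable def ff (q : ℕ) (θ : ℝ) (i r : ℕ) (v : Om (nn m (nsp par K0 M))) : ℝ :=
  if h : i < m then co v i 1 * (1 - Ps par Γ q θ v ⟨i, h⟩) - co v i 0 * Ps par Γ q θ v ⟨i, h⟩
  else match en m M K0 par (i - m) r with
    | none => 0
    | some x => rim x.2.2.2.2 (GG' par Γ q v (x.1, x.2.2.1) (x.2.1, x.2.2.2.1))

theorem ph_nonneg (θ : ℝ) (v : Om (nn m (nsp par K0 M))) (c : Fin m) :
    0 ≤ ph par Γ q θ v c := le_max_left _ _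

theorem Ps_mem (θ : ℝ) (v : Om (nn m (nsp par K0 M))) (c : Fin m) :
    0 ≤ Ps par Γ q θ v c ∧ Ps par Γ q θ v c ≤ 1 := by
  refine ⟨le_min zero_le_one ?_, min_le_left _ _⟩
  have h1 := ph_nonneg par Γ (q := q) θ v c
  have h2 : 0 < max 1 (∑ c', ph par Γ q θ v c') := lt_of_lt_of_le one_pos (le_max_left _ _)
  positivity

theorem GG_flp
    (heq : ∀ t ∈ TT m q, ∀ y ∈ PP (nsp par K0 M), ∀ k < K0, ∀ c c' a b,
      Γ t (flp (nsp par K0 M) k y) (c, a) (c', b) =
        (sgn (par k c + par k c') : ℂ) * Γ t y (c, a) (c', b))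
    (hq0 : 0 < q) (hq : q < m)
    {v : Om (nn m (nsp par K0 M))} (hv : v ∈ PP (nn m (nsp par K0 M))) {k : ℕ} (hk : k < m + K0)
    (c c' : Fin m) (a b : Fin M) :
    GG' par Γ q (flp (nn m (nsp par K0 M)) k v) (c, a) (c', b) =
      (sgn (pf m par k c c') : ℂ) * GG' par Γ q v (c, a) (c', b) := by
  unfold GG' pf
  rw [tv_flp]
  by_cases h : k < m
  · rw [yv_flp_lt h, if_pos h]
    simp [sgn]
  · obtain ⟨j, rfl⟩ : ∃ j, k = m + j := ⟨k - m, by omega⟩
    rw [yv_flp_ge, if_neg h, Nat.add_sub_cancel_left]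
    exact heq _ (RR_mem hq0 hq _ (tv_mem hv)) _ (yv_mem hv) j (by omega) c c' a b

theorem dblk_flp
    (heq : ∀ t ∈ TT m q, ∀ y ∈ PP (nsp par K0 M), ∀ k < K0, ∀ c c' a b,
      Γ t (flp (nsp par K0 M) k y) (c, a) (c', b) =
        (sgn (par k c + par k c') : ℂ) * Γ t y (c, a) (c', b))
    (hq0 : 0 < q) (hq : q < m)
    {v : Om (nn m (nsp par K0 M))} (hv : v ∈ PP (nn m (nsp par K0 M))) {k : ℕ} (hk : k < m + K0)
    (c : Fin m) :
    dblk (GG' par Γ q (flp (nn m (nsp par K0 M)) k v)) c = dblk (GG' par Γ q v) c := by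
  ext a b
  simp only [dblk, Matrix.of_apply]
  rw [GG_flp par Γ heq hq0 hq hv hk]
  have : pf m par k c c = 0 := by
    unfold pf
    split_ifs
    · rfl
    · exact CharTwo.add_self_eq_zero _
  rw [this]
  simp [sgn]

theorem Ps_flp
    (heq : ∀ t ∈ TT m q, ∀ y ∈ PP (nsp par K0 M), ∀ k < K0, ∀ c c' a b,
      Γ t (flp (nsp par K0 M) k y) (c, a) (c', b) =
        (sgn (par k c + par k c') : ℂ) * Γ t y (c, a) (c', b))
    (hq0 : 0 < q) (hq : q < m) (θ : ℝ)
    {v : Om (nn m (nsp par K0 M))} (hv : v ∈ PP (nn m (nsp par K0 M))) {k : ℕ} (hk : k < m + K0)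
    (c : Fin m) :
    Ps par Γ q θ (flp (nn m (nsp par K0 M)) k v) c = Ps par Γ q θ v c := by
  unfold Ps ph
  simp only [dblk_flp par Γ heq hq0 hq hv hk]

theorem ff_flp
    (hsep : ∀ c c', c ≠ c' → ∃ k < K0, par k c ≠ par k c')
    (heq : ∀ t ∈ TT m q, ∀ y ∈ PP (nsp par K0 M), ∀ k < K0, ∀ c c' a b,
      Γ t (flp (nsp par K0 M) k y) (c, a) (c', b) =
        (sgn (par k c + par k c') : ℂ) * Γ t y (c, a) (c', b))
    (hq0 : 0 < q) (hq : q < m) (θ : ℝ)
    {v : Om (nn m (nsp par K0 M))} (hv : v ∈ PP (nn m (nsp par K0 M))) {k : ℕ} (hk : k < m + K0)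
    (i r : ℕ) :
    ff par Γ q θ i r (flp (nn m (nsp par K0 M)) k v) =
      sgn (pp m M K0 par i r k) * ff par Γ q θ i r v := by
  have hs1 : sgn 1 = -1 := by simp [sgn]
  have hs0 : sgn 0 = 1 := by simp [sgn]
  unfold ff pp
  by_cases hi : i < m
  · rw [dif_pos hi, dif_pos hi, Ps_flp par Γ heq hq0 hq θ hv hk, co_flp, co_flp]
    by_cases hki : k = i
    · subst hki
      rw [if_pos rfl, if_pos rfl, if_pos rfl, hs1]
      ring
    · have hik : ¬ i = k := fun h => hki h.symm
      rw [if_neg hik, if_neg hik, if_neg hki, if_pos hi]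
      simp only [ite_self, hs0, one_mul]
  · rw [dif_neg hi, dif_neg hi, if_neg hi]
    rcases hen : en m M K0 par (i - m) r with _ | x
    · simp
    · obtain ⟨hx1, hx2⟩ := en_mem par hen
      simp only
      rw [GG_flp par Γ heq hq0 hq hv hk, rim_mul]
      have hsx := hsep x.1 x.2.1 hx1.ne
      congr 2
      by_cases hki : k = i
      · rw [if_pos hki]
        unfold pf
        rw [if_neg (by omega), hki, ← hx2]
        exact zmod2_add (lead_ne par hsx)
      · rw [if_neg hki]
        by_cases hik : i < k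
        · rw [if_pos hik]
          unfold pf
          rw [if_neg (by omega), lead_gt par (k := k - m) (c := x.1) (c' := x.2.1)
            (K0 := K0) (by omega) (by omega)]
          exact CharTwo.add_self_eq_zero _
        · rw [if_neg hik]

theorem GG_cont
    (hcont : ∀ i j, ContinuousOn (fun v : (Fin m → ℝ) × Om (nsp par K0 M) => Γ v.1 v.2 i j)
      (TT m q ×ˢ PP (nsp par K0 M)))
    (hq0 : 0 < q) (hq : q < m) (i j : Fin m × Fin M) :
    ContinuousOn (fun v : Om (nn m (nsp par K0 M)) => GG' par Γ q v i j)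
      (PP (nn m (nsp par K0 M))) := by
  have h1 : Continuous fun v : Om (nn m (nsp par K0 M)) => (RR q (tv v), yv v) :=
    ((RR_cont hq0 hq).comp tv_cont).prodMk yv_cont
  exact (hcont i j).comp h1.continuousOn fun v hv =>
    ⟨RR_mem hq0 hq _ (tv_mem hv), yv_mem hv⟩

theorem det_cont {X : Type} [TopologicalSpace X] {S : Set X}
    (G : X → Matrix (Fin m × Fin M) (Fin m × Fin M) ℂ)
    (h : ∀ i j, ContinuousOn (fun x => G x i j) S) (c : Fin m) :
    ContinuousOn (fun x => (dblk (G x) c).det.re) S := by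
  have h1 : ContinuousOn (fun x => dblk (G x) c) S := by
    refine continuousOn_pi.mpr fun a => continuousOn_pi.mpr fun b => ?_
    exact h (c, a) (c, b)
  have h2 : Continuous fun A : Matrix (Fin M) (Fin M) ℂ => A.det.re :=
    Complex.continuous_re.comp (Continuous.matrix_det continuous_id)
  exact h2.comp_continuousOn h1

theorem ff_cont
    (hcont : ∀ i j, ContinuousOn (fun v : (Fin m → ℝ) × Om (nsp par K0 M) => Γ v.1 v.2 i j)
      (TT m q ×ˢ PP (nsp par K0 M)))
    (hq0 : 0 < q) (hq : q < m) (θ : ℝ) (i r : ℕ) :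
    ContinuousOn (ff par Γ q θ i r) (PP (nn m (nsp par K0 M))) := by
  have hph : ∀ c, ContinuousOn (fun v => ph par Γ q θ v c) (PP (nn m (nsp par K0 M))) := by
    intro c
    have h1 := det_cont (fun v => GG' par Γ q v) (GG_cont par Γ hcont hq0 hq) c
    exact ContinuousOn.sup continuousOn_const (continuousOn_const.sub (h1.div_const θ))
  have hPs : ∀ c, ContinuousOn (fun v => Ps par Γ q θ v c) (PP (nn m (nsp par K0 M))) := by
    intro c
    refine ContinuousOn.inf continuousOn_const ((continuousOn_const.mul (hph c)).div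
      (ContinuousOn.sup continuousOn_const (continuousOn_finsetSum _ fun c' _ => hph c')) ?_)
    intro v _
    exact (lt_of_lt_of_le one_pos (le_max_left _ _)).ne'
  unfold ff
  by_cases hi : i < m
  · simp only [dif_pos hi]
    exact (((co_cont i 1).continuousOn).mul (continuousOn_const.sub (hPs _))).sub
      (((co_cont i 0).continuousOn).mul (hPs _))
  · simp only [dif_neg hi]
    rcases hen : en m M K0 par (i - m) r with _ | x
    · exact continuousOn_const
    · exact (rim_cont _).comp_continuousOn (GG_cont par Γ hcont hq0 hq _ _)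

end

end Pool.Agent.Y232.RK
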