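import Mathlib
import Pool.Agent.Y232.RK.Theta

/-!
# RK-EX, part 3: the existence theorem
-/

set_option autoImplicit false

namespace Pool.Agent.Y232.RK

open Pool.Agent.Helper133.BT Pool.Agent.Helper133.BU Pool.Agent.Y269.RK
open scoped ComplexOrder
open Filter Topology

theorem det_dblk_nonneg {m M : ℕ} {G : Matrix (Fin m × Fin M) (Fin m × Fin M) ℂ}
    (h : G.PosSemidef) (c : Fin m) : 0 ≤ (dblk G c).det :=
  (h.submatrix fun a : Fin M => (c, a)).det_nonneg

theorem det_eq_zero_of_re {m M : ℕ} {G : Matrix (Fin m × Fin M) (Fin m × Fin M) ℂ}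
    (h : G.PosSemidef) (c : Fin m) (h0 : (dblk G c).det.re ≤ 0) : (dblk G c).det = 0 := by
  have h1 := Complex.le_def.mp (det_dblk_nonneg h c)
  apply Complex.ext
  · exact le_antisymm h0 h1.1
  · exact h1.2.symm

theorem det_of_blocks {m M : ℕ} {G : Matrix (Fin m × Fin M) (Fin m × Fin M) ℂ}
    (h : ∀ c c', c ≠ c' → ∀ a b, G (c, a) (c', b) = 0) : G.det = ∏ c, (dblk G c).det := by
  rw [← Matrix.det_blockDiagonal, ← Matrix.det_submatrix_equiv_self (Equiv.prodComm _ _)]
  congr 1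
  ext ⟨a, c⟩ ⟨b, c'⟩
  simp only [Matrix.submatrix_apply, Equiv.prodComm_apply, Prod.swap_prod_mk,
    Matrix.blockDiagonal_apply]
  by_cases hc : c = c'
  · subst hc
    rw [if_pos rfl]
    rfl
  · rw [if_neg hc]
    exact h c c' hc a b

open Classical in
theorem ex_theta {m M K0 q : ℕ} (par : ℕ → Fin m → ZMod 2)
    (Γ : (Fin m → ℝ) → Om (nsp par K0 M) → Matrix (Fin m × Fin M) (Fin m × Fin M) ℂ)
    (hq0 : 0 < q) (hq : q < m)
    (hsep : ∀ c c', c ≠ c' → ∃ k < K0, par k c ≠ par k c')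
    (hcont : ∀ i j, ContinuousOn (fun v : (Fin m → ℝ) × Om (nsp par K0 M) => Γ v.1 v.2 i j)
      (TT m q ×ˢ PP (nsp par K0 M)))
    (hpsd : ∀ t ∈ TT m q, ∀ y ∈ PP (nsp par K0 M), (Γ t y).PosSemidef ∧ (Γ t y).det = 0)
    (heq : ∀ t ∈ TT m q, ∀ y ∈ PP (nsp par K0 M), ∀ k < K0, ∀ c c' a b,
      Γ t (flp (nsp par K0 M) k y) (c, a) (c', b) =
        (sgn (par k c + par k c') : ℂ) * Γ t y (c, a) (c', b))
    (θ0 : ℝ) (hθ0 : ∀ t ∈ TT m q, ∀ y ∈ PP (nsp par K0 M), ∀ c, t c = 1 →
      θ0 ≤ (dblk (Γ t y) c).det.re)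
    (θ : ℝ) (hθ : 0 < θ) (hθ' : θ ≤ θ0) :
    ∃ t ∈ TT m q, ∃ y ∈ PP (nsp par K0 M),
      (∀ c c', c ≠ c' → ∀ a b, Γ t y (c, a) (c', b) = 0) ∧
      q ≤ (Finset.univ.filter fun c : Fin m => (dblk (Γ t y) c).det.re < θ).card := by
  have hq0' : (0 : ℝ) < q := by exact_mod_cast hq0
  obtain ⟨v, hv, hz⟩ := triangular (nn m (nsp par K0 M))
    (fun i => by
      unfold nn
      split_ifs
      · exact le_rfl
      · exact le_max_left _ _)
    (m + K0) (pp m M K0 par) (fun i r => by unfold pp; rw [if_pos rfl])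
    (fun i r k hik => by unfold pp; rw [if_neg (by omega), if_pos hik])
    (ff par Γ q θ) (ff_cont par Γ hcont hq0 hq θ)
    (fun i _ r _ k hk v hv => ff_flp par Γ hsep heq hq0 hq θ hv hk i r)
  -- the circle equations
  have hA : ∀ c : Fin m, tv v c = Ps par Γ q θ v c := by
    intro c
    have h1 := hz c (by omega) 0 (by rw [nn_lt c.2]; omega)
    unfold ff at h1
    rw [dif_pos c.2] at h1
    have h2 : co v c 1 * (1 - Ps par Γ q θ v c) = co v c 0 * Ps par Γ q θ v c := by
      have : (⟨(c : ℕ), c.2⟩ : Fin m) = c := rfl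
      rw [this] at h1
      linarith
    have h3 := congrArg abs h2
    have h4 := Ps_mem par Γ (q := q) θ v c
    rw [abs_mul, abs_mul, abs_of_nonneg (by linarith : 0 ≤ 1 - Ps par Γ q θ v c),
      abs_of_nonneg h4.1] at h3
    have h5 := circle hv c
    unfold tv
    have h6 : |co v (c : ℕ) 0| = 1 - |co v (c : ℕ) 1| := by linarith
    rw [h6] at h3
    linarith
  -- the blocks
  have ht0 : RR q (tv v) ∈ TT m q := RR_mem hq0 hq _ (tv_mem hv)
  have hy0 : yv v ∈ PP (nsp par K0 M) := yv_mem hv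
  have hG : (GG' par Γ q v).PosSemidef ∧ (GG' par Γ q v).det = 0 := hpsd _ ht0 _ hy0
  have hB1 : ∀ c c' : Fin m, c < c' → ∀ a b, GG' par Γ q v (c, a) (c', b) = 0 := by
    intro c c' hcc a b
    have hs := hsep c c' hcc.ne
    have hl := lead_lt par hs
    have key : ∀ e, rim e (GG' par Γ q v (c, a) (c', b)) = 0 := by
      intro e
      obtain ⟨r, hr, hen⟩ := exists_en (M := M) par (k := lead par K0 c c')
        (x := (c, c', a, b, e)) hcc rfl
      have h1 := hz (m + lead par K0 c c') (by omega) r (by rw [nn_add]; exact hr)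
      unfold ff at h1
      rw [dif_neg (by omega), Nat.add_sub_cancel_left, hen] at h1
      exact h1
    exact Complex.ext (key true) (key false)
  have hB : ∀ c c' : Fin m, c ≠ c' → ∀ a b, GG' par Γ q v (c, a) (c', b) = 0 := by
    intro c c' hcc a b
    rcases lt_or_gt_of_ne hcc with h | h
    · exact hB1 c c' h a b
    · have h1 := hG.1.1.apply (c, a) (c', b)
      rw [hB1 c' c h b a, star_zero] at h1
      exact h1.symm
  -- one block is singular
  have hprod : ∏ c, (dblk (GG' par Γ q v) c).det = 0 := by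
    rw [← det_of_blocks hB]
    exact hG.2
  obtain ⟨c0, -, hc0⟩ := Finset.prod_eq_zero_iff.mp hprod
  have hphc0 : ph par Γ q θ v c0 = 1 := by
    unfold ph
    rw [hc0]
    simp
  have hsum1 : 1 ≤ ∑ c, ph par Γ q θ v c := by
    rw [← hphc0]
    exact Finset.single_le_sum (f := fun c => ph par Γ q θ v c)
      (fun c _ => ph_nonneg par Γ θ v c) (Finset.mem_univ c0)
  have hPs : ∀ c, Ps par Γ q θ v c = min 1 (q * ph par Γ q θ v c / ∑ c', ph par Γ q θ v c') := by
    intro c
    unfold Ps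
    rw [max_eq_right hsum1]
  have hsumq : ∑ c, (q * ph par Γ q θ v c / ∑ c', ph par Γ q θ v c') = q := by
    rw [← Finset.sum_div, ← Finset.mul_sum, mul_div_assoc, div_self (by linarith), mul_one]
  have hle : ∑ c, tv v c ≤ q := by
    rw [← hsumq]
    refine Finset.sum_le_sum fun c _ => ?_
    rw [hA, hPs]
    exact min_le_right _ _
  -- no parameter is one
  have hone : ∀ c, tv v c ≠ 1 := by
    intro c hc
    have h1 : RR q (tv v) c = 1 := RR_one hq0 hq _ (tv_mem hv) hle c hc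
    have h2 : θ0 ≤ (dblk (GG' par Γ q v) c).det.re := hθ0 _ ht0 _ hy0 c h1
    have h3 : ph par Γ q θ v c = 0 := by
      unfold ph
      refine max_eq_left ?_
      have : 1 ≤ (dblk (GG' par Γ q v) c).det.re / θ := by
        rw [le_div_iff₀ hθ]
        linarith
      linarith
    have h4 : Ps par Γ q θ v c = 0 := by
      rw [hPs, h3]
      simp
    rw [hA, h4] at hc
    exact zero_ne_one hc
  have hlt : ∀ c, tv v c < 1 := fun c => lt_of_le_of_ne (tv_mem hv c).2 (hone c)
  have hval : ∀ c, tv v c = q * ph par Γ q θ v c / ∑ c', ph par Γ q θ v c' := by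
    intro c
    have h1 := hlt c
    rw [hA, hPs] at h1 ⊢
    rcases min_choice (1 : ℝ) (q * ph par Γ q θ v c / ∑ c', ph par Γ q θ v c') with h | h
    · rw [h] at h1
      exact absurd h1 (lt_irrefl _)
    · exact h
  have hsum : ∑ c, tv v c = q := by
    rw [← hsumq]
    exact Finset.sum_congr rfl fun c _ => hval c
  have htT : tv v ∈ TT m q := ⟨tv_mem hv, hsum⟩
  have hfix : RR q (tv v) = tv v := RR_fix hq0 hq _ htT
  have hGG : GG' par Γ q v = Γ (tv v) (yv v) := by
    unfold GG'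
    rw [hfix]
  refine ⟨tv v, htT, yv v, hy0, ?_, ?_⟩
  · rw [← hGG]
    exact hB
  · rw [← hGG]
    have h1 : (q : ℝ) ≤ ((Finset.univ.filter fun c : Fin m =>
        (dblk (GG' par Γ q v) c).det.re < θ).card : ℝ) := by
      rw [← hsum]
      calc ∑ c, tv v c ≤ ∑ c : Fin m, if (dblk (GG' par Γ q v) c).det.re < θ then (1 : ℝ) else 0 := by
            refine Finset.sum_le_sum fun c _ => ?_
            by_cases h : (dblk (GG' par Γ q v) c).det.re < θ
            · rw [if_pos h]
              exact (tv_mem hv c).2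
            · rw [if_neg h, hval]
              have h3 : ph par Γ q θ v c = 0 := by
                unfold ph
                refine max_eq_left ?_
                have : 1 ≤ (dblk (GG' par Γ q v) c).det.re / θ := by
                  rw [le_div_iff₀ hθ]
                  linarith
                linarith
              rw [h3]
              simp
        _ = _ := by
            rw [Finset.sum_ite]
            simp
    exact_mod_cast h1

/-- a lower bound of the determinants of the blocks at parameter one -/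
theorem exists_theta0 {m M : ℕ} {Y : Type} [TopologicalSpace Y] {T : Set (Fin m → ℝ)} {S : Set Y}
    (hT : IsCompact T) (hS : IsCompact S) (hm : 0 < m)
    (Γ : (Fin m → ℝ) → Y → Matrix (Fin m × Fin M) (Fin m × Fin M) ℂ)
    (hcont : ∀ i j, ContinuousOn (fun v : (Fin m → ℝ) × Y => Γ v.1 v.2 i j) (T ×ˢ S))
    (hpos : ∀ t ∈ T, ∀ y ∈ S, ∀ c, t c = 1 → 0 < (dblk (Γ t y) c).det.re) :
    ∃ θ0 : ℝ, 0 < θ0 ∧ ∀ t ∈ T, ∀ y ∈ S, ∀ c, t c = 1 → θ0 ≤ (dblk (Γ t y) c).det.re := by
  have h1 : ∀ c : Fin m, ∃ θ : ℝ, 0 < θ ∧ ∀ t ∈ T, ∀ y ∈ S, t c = 1 →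
      θ ≤ (dblk (Γ t y) c).det.re := by
    intro c
    have hK : IsCompact ((T ×ˢ S) ∩ {v : (Fin m → ℝ) × Y | v.1 c = 1}) :=
      (hT.prod hS).inter_right
        (isClosed_eq ((continuous_apply c).comp continuous_fst) continuous_const)
    have hc : ContinuousOn (fun v : (Fin m → ℝ) × Y => (dblk (Γ v.1 v.2) c).det.re)
        ((T ×ˢ S) ∩ {v : (Fin m → ℝ) × Y | v.1 c = 1}) :=
      (det_cont (fun v : (Fin m → ℝ) × Y => Γ v.1 v.2) hcont c).mono Set.inter_subset_left
    obtain ⟨θ, h2, h3⟩ := hK.exists_forall_le' hc (a := 0)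
      (fun v hv => hpos v.1 hv.1.1 v.2 hv.1.2 c hv.2)
    exact ⟨θ, h2, fun t ht y hy htc => h3 (t, y) ⟨⟨ht, hy⟩, htc⟩⟩
  choose θ h2 h3 using h1
  have hne : (Finset.univ : Finset (Fin m)).Nonempty := ⟨⟨0, hm⟩, Finset.mem_univ _⟩
  obtain ⟨c0, -, hc0⟩ := Finset.exists_min_image Finset.univ θ hne
  exact ⟨θ c0, h2 c0, fun t ht y hy c htc =>
    le_trans (hc0 c (Finset.mem_univ c)) (h3 c t ht y hy htc)⟩

/-- **The existence theorem.** -/
theorem ex : S_EX := by
  classical
  intro m M K0 q par Γ _ hq0 hq hsep hcont hpsd heq hnd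
  have hcomp : IsCompact (TT m q ×ˢ PP (nsp par K0 M)) := (TT_compact m q).prod (PP_compact _)
  obtain ⟨θ0, hθ0, hθ1⟩ := exists_theta0 (TT_compact m q) (PP_compact (nsp par K0 M))
    (by omega) Γ hcont (by
      intro t ht y hy c htc
      have h1 := hpsd t ht y hy
      have h2 := Complex.le_def.mp (det_dblk_nonneg h1.1 c)
      rcases h2.1.lt_or_eq with h | h
      · exact h
      · exact absurd (det_eq_zero_of_re h1.1 c h.symm.le) (hnd t ht y hy c htc))
  have hex : ∀ N : ℕ, ∃ t ∈ TT m q, ∃ y ∈ PP (nsp par K0 M),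
      (∀ c c', c ≠ c' → ∀ a b, Γ t y (c, a) (c', b) = 0) ∧
      q ≤ (Finset.univ.filter fun c : Fin m =>
        (dblk (Γ t y) c).det.re < θ0 / (N + 1)).card := by
    intro N
    refine ex_theta par Γ hq0 hq hsep hcont hpsd heq θ0 hθ1 (θ0 / (N + 1)) (by positivity) ?_
    rw [div_le_iff₀ (by positivity)]
    have : (0 : ℝ) ≤ N := Nat.cast_nonneg N
    nlinarith
  choose t ht y hy hoff hcard using hex
  obtain ⟨⟨t', y'⟩, hx', hlim⟩ := hcomp.ultrafilter_le_nhds
    (Ultrafilter.map (fun N => (t N, y N)) (Ultrafilter.of (atTop : Filter ℕ))) (by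
      rw [Ultrafilter.coe_map, Filter.le_principal_iff, Filter.mem_map]
      exact Filter.univ_mem' fun N => ⟨ht N, hy N⟩)
  set U : Ultrafilter ℕ := Ultrafilter.of (atTop : Filter ℕ) with hU
  have hUbot : (U : Filter ℕ).NeBot := Ultrafilter.neBot _
  have hUle : (U : Filter ℕ) ≤ atTop := Ultrafilter.of_le _
  have hxlim : Tendsto (fun N => (t N, y N)) U (𝓝[TT m q ×ˢ PP (nsp par K0 M)] (t', y')) := by
    rw [Ultrafilter.coe_map] at hlim
    exact tendsto_nhdsWithin_iff.mpr ⟨hlim, Filter.univ_mem' fun N => ⟨ht N, hy N⟩⟩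
  refine ⟨t', hx'.1, y', hx'.2, ?_, ?_⟩
  · intro c c' hcc a b
    have h1 : Tendsto (fun N => Γ (t N) (y N) (c, a) (c', b)) U (𝓝 (Γ t' y' (c, a) (c', b))) :=
      (hcont (c, a) (c', b) (t', y') hx').tendsto.comp hxlim
    have h2 : (fun N => Γ (t N) (y N) (c, a) (c', b)) = fun _ => 0 := by
      funext N
      exact hoff N c c' hcc a b
    rw [h2] at h1
    exact (tendsto_nhds_unique h1 tendsto_const_nhds)
  · -- the set of labels that occur for almost all `N`
    let A : ℕ → Finset (Fin m) := fun N => Finset.univ.filter fun c : Fin m =>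
        (dblk (Γ (t N) (y N)) c).det.re < θ0 / (N + 1)
    have hconst : ∃ A0 : Finset (Fin m), ∀ᶠ N in (U : Filter ℕ), A N = A0 := by
      by_contra hcon
      push Not at hcon
      have h1 : ∀ A0 : Finset (Fin m), ∀ᶠ N in (U : Filter ℕ), A N ≠ A0 := by
        intro A0
        have h2 := hcon A0
        exact Ultrafilter.eventually_not.mpr (by simpa using h2)
      have h2 : ∀ᶠ N in (U : Filter ℕ), ∀ A0 : Finset (Fin m), A N ≠ A0 :=
        Filter.eventually_all.mpr h1
      obtain ⟨N, hN⟩ := h2.exists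
      exact hN (A N) rfl
    obtain ⟨A0, hA0⟩ := hconst
    have hcardA : q ≤ A0.card := by
      obtain ⟨N, hN⟩ := hA0.exists
      rw [← hN]
      exact hcard N
    refine le_trans hcardA (Finset.card_le_card ?_)
    intro c hc
    rw [Finset.mem_filter]
    refine ⟨Finset.mem_univ c, ?_⟩
    have hpsd' := (hpsd t' hx'.1 y' hx'.2).1
    apply det_eq_zero_of_re hpsd' c
    have h1 : Tendsto (fun N => (dblk (Γ (t N) (y N)) c).det.re) U
        (𝓝 (dblk (Γ t' y') c).det.re) :=
      ((det_cont (fun v : (Fin m → ℝ) × Om (nsp par K0 M) => Γ v.1 v.2) hcont c)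
        (t', y') hx').tendsto.comp hxlim
    have h2 : Tendsto (fun N : ℕ => θ0 / ((N : ℝ) + 1)) U (𝓝 0) :=
      (tendsto_const_div_atTop_nhds_zero_nat θ0 |>.comp (tendsto_add_atTop_nat 1)
        |>.congr (fun N => by simp)).mono_left hUle
    refine le_of_tendsto_of_tendsto h1 h2 ?_
    filter_upwards [hA0] with N hN
    have h3 : c ∈ A N := by rw [hN]; exact hc
    exact (Finset.mem_filter.mp h3).2.le

end Pool.Agent.Y232.RK
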