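import Pool.Agent.Y232.RK.Vec
import Pool.Agent.Y232.RK.Num

/-!
# RK-ASM: the final assembly
-/

set_option autoImplicit false

namespace Pool.Agent.Y232.RK

open Pool.Agent.Helper133.BT Pool.Agent.Helper133.BU Pool.Agent.Y269.RK Filter Topology
open scoped ComplexOrder

attribute [local irreducible] nz dd nsp KK mm Pool.Agent.Y269.RK.al HH0 CC

theorem choose_all (h3 : S_CNT) (l L0 M : ℕ) (ε : ℝ) (hl : 1 ≤ l) (hM1 : HH0 l + 1 / 2 < M)
    (hM2 : (M : ℝ) ≤ HH0 l + 3 / 2) (hε : 0 < ε) (hε2 : ε ≤ 1 / (128 * (nz l : ℝ) ^ 2)) :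
    1 ≤ M ∧ M ≤ 5 * nz l ∧ ∃ L q ρ : ℕ, L0 ≤ L ∧ l ≤ L ∧ 0 < q ∧ q < mm l L ∧
      mm l L * HH0 l + Pool.Agent.Y269.RK.al l * q + CC l L + ε * nz L ≤ mm l L * M - 1 / 2 ∧
      ρ = ⌈(mm l L : ℝ) * HH0 l + Pool.Agent.Y269.RK.al l * q + CC l L - ε * nz L⌉₊ ∧
      mm l L * M - ρ ≤ q ∧
      (mm l L + KK l L + M ^ 2 * (mm l L * (mm l L - 1))) + 2 * q * (mm l L * M - ρ) + mm l L * M +
        2 * mm l L * M ^ 2 < (mm l L * M) ^ 2 + q ^ 2 + q := by
  obtain ⟨c1, c2, c3, c4, c5, c6⟩ := h3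
  have hn65 : 65 ≤ nz l := by
    have h5 : 65 ≤ nz 1 := by
      rw [nz_succ, nz_zero, mul_one]
      exact kz_ge 0
    exact h5.trans (nz_mono hl)
  have hn65' : (65 : ℝ) ≤ nz l := by exact_mod_cast hn65
  set n : ℕ := nz l with hn
  have hMpos : 1 ≤ M := by
    have h5 := (c5 l).1
    rw [← hn] at h5
    have h6 : (0 : ℝ) < M := by linarith
    exact_mod_cast h6
  have hM5 : M ≤ 5 * n := by
    have h5 := (c5 l).2
    have h6 := c3 l
    rw [← hn] at h5 h6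
    have h7 : (M : ℝ) ≤ 5 * n := by linarith
    exact_mod_cast h7
  -- the choice of `L`
  set C : ℕ := 2 * n * (32 * n ^ 2 * (1 + M + M ^ 2 + 2 * n) + 6 * n * (4 * n + 2) + 5 * (n + 1)) with hC
  obtain ⟨L, hL1, hL2⟩ := exists_L C (max L0 l)
  have hL0 : L0 ≤ L := (le_max_left _ _).trans hL1
  have hlL : l ≤ L := (le_max_right _ _).trans hL1
  set m : ℕ := mm l L with hm
  set a : ℕ := Pool.Agent.Y269.RK.al l with ha
  have d1 := c1 l L hlL
  have d2 := c2 l L hlL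
  have d3 := c3 l
  have d4 := c4 l
  have d6 := c6 l L hlL
  rw [← hn, ← hm] at d1 d2
  rw [← ha, ← hn] at d3 d4
  rw [← hn, ← hm] at d6
  have d2' : (m : ℝ) * n ≤ nz L := by exact_mod_cast d2
  have hNL0 : (0 : ℝ) ≤ nz L := Nat.cast_nonneg _
  have hnpos : (0 : ℝ) < n := by linarith
  -- `NL (1 - 1 / (64 n)) ≤ m n`
  have e1 : (nz L : ℝ) * (64 * n - 1) ≤ 64 * n * (m * n) := by
    have h5 : (2 : ℝ) ≤ 2 ^ l := by
      calc (2 : ℝ) = 2 ^ 1 := by norm_num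
        _ ≤ 2 ^ l := pow_le_pow_right₀ (by norm_num) hl
    have h6 : 1 / (32 * 2 ^ l * (n : ℝ)) ≤ 1 / (64 * n) := by
      apply one_div_le_one_div_of_le (by positivity)
      nlinarith
    have h7 : (nz L : ℝ) * (1 - 1 / (64 * n)) ≤ m * n := by
      refine le_trans ?_ d1
      exact mul_le_mul_of_nonneg_left (by linarith) hNL0
    have h8 : (64 * n : ℝ) * (nz L * (1 - 1 / (64 * n))) = nz L * (64 * n - 1) := by
      field_simp
    rw [← h8]
    exact mul_le_mul_of_nonneg_left h7 (by positivity)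
  have e2 : (nz L : ℝ) ≤ 1.001 * (m * n) := by
    have h5 : (nz L : ℝ) * (64 * n - 1) ≤ 1.001 * (m * n) * (64 * n - 1) := by
      refine e1.trans ?_
      have h6 : (0 : ℝ) ≤ m * n := by positivity
      have h7 : 64 * (n : ℝ) ≤ 1.001 * (64 * n - 1) := by linarith
      have h8 := mul_le_mul_of_nonneg_left h7 h6
      linarith
    exact le_of_mul_le_mul_right h5 (by linarith)
  have e3 : (nz L : ℝ) - m * n ≤ nz L / (64 * n) := by
    rw [le_div_iff₀ (by positivity)]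
    linarith
  have hcc : CC l L ≤ m / 31 := by
    have h5 : (nz L : ℝ) / (64 * n) ≤ 1.001 * m / 64 := by
      rw [div_le_div_iff₀ (by positivity) (by norm_num)]
      linarith
    have h6 := d6.2
    have h7 : (0 : ℝ) ≤ m := Nat.cast_nonneg _
    linarith
  have hE0 : 0 ≤ ε * nz L := by positivity
  have hE : n * (ε * nz L) ≤ 1.001 * m / 128 := by
    have h5 : ε * (128 * (n : ℝ) ^ 2) ≤ 1 := by
      rw [le_div_iff₀ (by positivity)] at hε2
      exact hε2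
    have h6 : n * (ε * nz L) ≤ n * (ε * (1.001 * (m * n))) :=
      mul_le_mul_of_nonneg_left (mul_le_mul_of_nonneg_left e2 hε.le) hnpos.le
    have h7 : n * (ε * (1.001 * (m * n))) = (ε * (128 * (n : ℝ) ^ 2)) * (1.001 * m / 128) := by ring
    have h8 : (ε * (128 * (n : ℝ) ^ 2)) * (1.001 * m / 128) ≤ 1 * (1.001 * m / 128) :=
      mul_le_mul_of_nonneg_right h5 (by positivity)
    linarith
  have hK : ((KK l L : ℕ) : ℝ) ≤ 1.001 * ((L : ℝ) * (m * n)) := by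
    have h5 : KK l L ≤ L * nz L := by
      unfold KK
      exact Nat.mul_le_mul_right _ (Nat.sub_le _ _)
    have h6 : ((KK l L : ℕ) : ℝ) ≤ (L : ℝ) * nz L := by exact_mod_cast h5
    have h7 : (L : ℝ) * nz L ≤ L * (1.001 * (m * n)) :=
      mul_le_mul_of_nonneg_left e2 (Nat.cast_nonneg _)
    linarith
  have hbig : (32 * (n : ℝ) ^ 2 * (1 + M + M ^ 2 + 2 * n) + 6 * n * (4 * n + 2) + 5 * (n + 1)) *
      ((L : ℝ) + 1) ≤ m := by
    have h5 : (C : ℝ) * (L + 1) ≤ nz L := by exact_mod_cast hL2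
    have h6 : (C : ℝ) = 2 * n * (32 * (n : ℝ) ^ 2 * (1 + M + M ^ 2 + 2 * n) + 6 * n * (4 * n + 2) +
        5 * (n + 1)) := by
      rw [hC]; push_cast; ring
    rw [h6] at h5
    set D : ℝ := 32 * (n : ℝ) ^ 2 * (1 + M + M ^ 2 + 2 * n) + 6 * n * (4 * n + 2) + 5 * (n + 1)
    have h7 : n * (2 * (D * (L + 1))) ≤ n * (2 * m) := by
      calc n * (2 * (D * ((L : ℝ) + 1))) = 2 * n * D * (L + 1) := by ring
        _ ≤ nz L := h5
        _ ≤ 1.001 * (m * n) := e2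
        _ ≤ n * (2 * m) := by
            have : (0 : ℝ) ≤ m * n := by positivity
            linarith
    have h8 := le_of_mul_le_mul_left h7 hnpos
    linarith
  obtain ⟨q, hq0, hqm, hq1, hq2⟩ := num (K0 := KK l L) (E := ε * nz L) (L := L) hn65 d3 d4 hM1 hM2
    d6.1 hcc hE0 hE (Nat.cast_nonneg _) hK hbig
  set ρ : ℕ := ⌈(m : ℝ) * HH0 l + a * q + CC l L - ε * nz L⌉₊ with hρ
  obtain ⟨hδ, hnum⟩ := hq2 ρ (Nat.le_ceil _)
  exact ⟨hMpos, hM5, L, q, ρ, hL0, hlL, hq0, hqm, hq1, rfl, hδ, hnum⟩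

theorem asm (h : S_CORE) (h1 : S_LAB1) (h2 : S_LAB2) (h3 : S_CNT) (h4 : S_SUM) : S_ASM := by
  intro N l0 l L0 M x w η η' ε hx hherm hl hM1 hM2 hw hη hε hε2 hpos hup hlow
  obtain ⟨hMpos, hM5, L, q, ρ, hL0, hlL, hq0, hqm, hq1, hρ, hδ, hnum⟩ :=
    choose_all h3 l L0 M ε hl hM1 hM2 hε hε2
  have hdim : ∀ k < KK l L, nsp (parf l L) (KK l L) M k ≤ dd (l + k / nz L) :=
    fun k hk => h2 l L M k hlL hM5 hk
  -- the sum of the entries
  have hsum : ∀ t ∈ TT (mm l L) q, ∀ y : YT l L M,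
      ∑ i ∈ Finset.range (nz L), hh i (pp l L M t y) =
        mm l L * HH0 l + Pool.Agent.Y269.RK.al l * q + CC l L := by
    intro t ht y
    have h5 := h4 l L (pp l L M t y) t hlL (fun c i hi => ppu_cx t c (ht.1 c) hi)
    rw [h5, ht.2]
  refine h (mm l L) M (KK l L) q (mm l L * M - ρ) ρ (parf l L) (Fin N × Fin (nz L)) (sgf N l L)
    (fun c b => wsh l L (cx l L c) (w b)) η η' (fun t y => XM N L x (pp l L M t y))
    hMpos hq0 hqm hη (fun c c' hc => h1 l L hlL c c' hc) (fun c b i hi k _ => sgf_par k c hi)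
    (fun c => wsh_li (cx_lt c) hw) (XM_ll hx hdim) (fun t _ y _ => hherm L _)
    (fun t _ y hy k i j => XM_flip hx hdim t hy k i j) ?_ ?_ ?_ (by omega) hδ hnum
  · intro t ht y _ c htc v hv
    refine hpos L hL0 (cx l L c) (cx_mem l L c) (pp l L M t y) ?_ ?_ v hv
    · intro i hi
      have h6 : ((pp l L M t y).u (cx l L c * nz l + i) : ℝ) = t c := ppu_cx t c (ht.1 c) hi
      exact h6.trans htc
    · intro l' hl' s _
      exact ppy_bad y (fun hh => by omega)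
  · intro t ht y _ F hF
    have h5 := hup L hL0 (pp l L M t y) F hF
    rw [hsum t ht y] at h5
    have h6 : (Module.finrank ℂ F : ℝ) < ((mm l L * M : ℕ) : ℝ) := by
      push_cast
      linarith
    exact_mod_cast h6
  · intro t ht y _
    obtain ⟨F, hF1, hF2⟩ := hlow L hL0 (pp l L M t y)
    refine ⟨F, ?_, hF2⟩
    rw [hρ]
    rw [hsum t ht y] at hF1
    exact Nat.ceil_le.mpr hF1

end Pool.Agent.Y232.RK
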