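import Pool.Agent.Y232.RK.Emb

/-!
# RK-ASM, part 3: the vectors, the parities, the choice of `L`
-/

set_option autoImplicit false

namespace Pool.Agent.Y232.RK

open Pool.Agent.Helper133.BT Pool.Agent.Helper133.BU Pool.Agent.Y269.RK Filter Topology
open scoped ComplexOrder

noncomputable section

lemma wsh_supp {N l L c : ℕ} {w : Fin N × Fin (nz l) → ℂ} {i : Fin N × Fin (nz L)}
    (h : wsh l L c w i ≠ 0) : c * nz l ≤ (i.2 : ℕ) ∧ (i.2 : ℕ) < c * nz l + nz l := by
  by_contra hcon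
  apply h
  unfold wsh
  rw [dif_neg hcon]

lemma blk_le {l L c : ℕ} (hc : c < nz L / nz l) : c * nz l + nz l ≤ nz L := by
  have h1 : (c + 1) * nz l ≤ nz L :=
    (Nat.mul_le_mul_right _ (show c + 1 ≤ nz L / nz l from hc)).trans (Nat.div_mul_le_self _ _)
  linarith [show (c + 1) * nz l = c * nz l + nz l by ring]

/-- `wsh` as a linear map -/
def wshL (N l L c : ℕ) : (Fin N × Fin (nz l) → ℂ) →ₗ[ℂ] (Fin N × Fin (nz L) → ℂ) where
  toFun := wsh l L c
  map_add' u v := by
    funext i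
    simp only [wsh, Pi.add_apply]
    split_ifs <;> simp
  map_smul' r u := by
    funext i
    simp only [wsh, Pi.smul_apply, smul_eq_mul, RingHom.id_apply]
    split_ifs <;> simp

lemma wsh_li {N l L c M : ℕ} (hc : c < nz L / nz l) {w : Fin M → Fin N × Fin (nz l) → ℂ}
    (h : LinearIndependent ℂ w) : LinearIndependent ℂ fun a => wsh l L c (w a) := by
  have hb := blk_le hc
  have hinj : LinearMap.ker (wshL N l L c) = ⊥ := by
    rw [LinearMap.ker_eq_bot']
    intro u hu
    funext i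
    have hi := i.2.2
    have h1 := congrFun hu (i.1, ⟨c * nz l + i.2, by omega⟩)
    have h2 : wsh l L c u (i.1, ⟨c * nz l + i.2, by omega⟩) = u i := by
      unfold wsh
      rw [dif_pos (by constructor <;> simp)]
      congr 1
      apply Prod.ext
      · rfl
      · apply Fin.ext
        simp
    have h3 : wshL N l L c u (i.1, ⟨c * nz l + i.2, by omega⟩) =
      wsh l L c u (i.1, ⟨c * nz l + i.2, by omega⟩) := rfl
    rw [h3, h2] at h1
    simpa using h1
  exact h.map' (wshL N l L c) hinj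

lemma inb_block {l l' s c i : ℕ} (hl : l ≤ l') (hs : nz l' ∣ s) (h1 : c * nz l ≤ i)
    (h2 : i < c * nz l + nz l) : inb l' s i ↔ inb l' s (c * nz l) := by
  obtain ⟨r, hr⟩ := nz_dvd hl
  obtain ⟨s', hs'⟩ := hs
  have hn := nz_pos l
  unfold inb
  have e1 : s = (s' * r) * nz l := by rw [hs', hr]; ring
  have e2 : s + nz l' = (s' * r + r) * nz l := by rw [hs', hr]; ring
  constructor
  · rintro ⟨h3, h4⟩
    refine ⟨?_, by omega⟩
    rw [e1] at h3 ⊢
    have h5 : (s' * r) * nz l < (c + 1) * nz l := by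
      calc (s' * r) * nz l ≤ i := h3
        _ < c * nz l + nz l := h2
        _ = (c + 1) * nz l := by ring
    have h6 : s' * r < c + 1 := lt_of_mul_lt_mul_right h5 (Nat.zero_le _)
    exact Nat.mul_le_mul_right _ (by omega)
  · rintro ⟨h3, h4⟩
    refine ⟨h3.trans h1, ?_⟩
    rw [e2] at h4 ⊢
    have h5 : c < s' * r + r := lt_of_mul_lt_mul_right h4 (Nat.zero_le _)
    calc i < c * nz l + nz l := h2
      _ = (c + 1) * nz l := by ring
      _ ≤ (s' * r + r) * nz l := Nat.mul_le_mul_right _ h5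

lemma exists_L (C L1 : ℕ) : ∃ L, L1 ≤ L ∧ C * (L + 1) ≤ nz L := by
  refine ⟨L1 + C + 1, by omega, ?_⟩
  set k := L1 + C with hk
  have h1 : k + 1 ≤ nz k := lt_nz k
  have h2 : nz k ≤ kz k := by
    unfold kz
    have h3 : 1 ≤ 2 ^ k := Nat.one_le_two_pow
    nlinarith [Nat.mul_le_mul h3 (le_refl (nz k))]
  have h3 : kz k ≥ 64 * nz k := by
    unfold kz
    have h3 : 1 ≤ 2 ^ k := Nat.one_le_two_pow
    nlinarith [Nat.mul_le_mul h3 (le_refl (nz k))]
  rw [nz_succ]
  calc C * (k + 1 + 1) ≤ (64 * (k + 1)) * (k + 1) := by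
        have : C ≤ k + 1 := by omega
        nlinarith
    _ ≤ kz k * nz k := Nat.mul_le_mul (by omega) h1

/-- the parity of an index -/
def sgf (N l L : ℕ) (k : ℕ) (i : Fin N × Fin (nz L)) : ZMod 2 :=
  open Classical in
  if good (l + k / nz L) (k % nz L) ∧ inb (l + k / nz L) (k % nz L) i.2 then 1 else 0

lemma sgf_par {N l L : ℕ} (k : ℕ) (c : Fin (mm l L)) {w : Fin N × Fin (nz l) → ℂ}
    {i : Fin N × Fin (nz L)} (h : wsh l L (cx l L c) w i ≠ 0) : sgf N l L k i = parf l L k c := by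
  classical
  have h1 := wsh_supp h
  unfold sgf parf
  by_cases hg : good (l + k / nz L) (k % nz L)
  · have h2 := inb_block (l' := l + k / nz L) (s := k % nz L) (Nat.le_add_right _ _) hg.1 h1.1 h1.2
    simp only [hg, true_and, h2]
  · simp only [hg, false_and, if_false]

lemma sgn_add (a b : ZMod 2) : sgn (a + b) = sgn a * sgn b := by
  revert a b
  unfold sgn
  have h2 : ∀ a : ZMod 2, a = 0 ∨ a = 1 := by decide
  intro a b
  rcases h2 a with rfl | rfl <;> rcases h2 b with rfl | rfl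
  · simp
  · simp
  · simp
  · have : (1 : ZMod 2) + 1 = 0 := by decide
    rw [this]
    simp

lemma sgn_sgf {N l L : ℕ} (k : ℕ) (i : Fin N × Fin (nz L)) (hg : good (l + k / nz L) (k % nz L)) :
    ((sgn (sgf N l L k i) : ℝ) : ℂ) = sk (l + k / nz L) (k % nz L) i.2 := by
  by_cases h : inb (l + k / nz L) (k % nz L) i.2
  · have e : sgf N l L k i = 1 := by
      unfold sgf
      rw [if_pos ⟨hg, h⟩]
    rw [e]
    unfold sk
    rw [if_pos h]
    simp [sgn]
  · have e : sgf N l L k i = 0 := by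
      unfold sgf
      rw [if_neg (fun h' => h h'.2)]
    rw [e]
    unfold sk
    rw [if_neg h]
    simp [sgn]

lemma sgf_bad {N l L : ℕ} (k : ℕ) (i : Fin N × Fin (nz L))
    (hg : ¬ good (l + k / nz L) (k % nz L)) : sgf N l L k i = 0 := by
  unfold sgf
  rw [if_neg (fun h' => hg h'.1)]

/-- the sign rule of the matrix -/
lemma XM_flip {N l0 l L M : ℕ} {x : Fin N → Fin N → FF} (hx : ∀ i j, Lev l0 (x i j))
    (hdim : ∀ k < KK l L, nsp (parf l L) (KK l L) M k ≤ dd (l + k / nz L))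
    (t : Fin (mm l L) → ℝ) {y : YT l L M} (hy : y ∈ YY (nsp (parf l L) (KK l L) M) (KK l L))
    (k : Fin (KK l L)) (i j : Fin N × Fin (nz L)) :
    XM N L x (pp l L M t (flf k y)) i j =
      (sgn (sgf N l L k i + sgf N l L k j) : ℂ) * XM N L x (pp l L M t y) i j := by
  have hnz := nz_pos L
  have h2 : (k : ℕ) / nz L < L - l := by
    have h1 := k.2
    unfold KK at h1
    rw [Nat.div_lt_iff_lt_mul hnz]
    exact h1
  have hks : (k : ℕ) % nz L < nz L := Nat.mod_lt _ hnz
  have hkk : (l + (k : ℕ) / nz L - l) * nz L + (k : ℕ) % nz L = k := by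
    rw [Nat.add_sub_cancel_left, mul_comm]
    exact Nat.div_add_mod _ _
  have hlt : l + (k : ℕ) / nz L < L := by
    generalize (k : ℕ) / nz L = kd at h2 ⊢
    omega
  by_cases hg : good (l + (k : ℕ) / nz L) ((k : ℕ) % nz L)
  · rw [pp_flip_good hdim t hy k (Nat.le_add_right _ _) hlt hks hkk hg]
    simp only [XM, Matrix.of_apply]
    rw [(hx i.1 j.1).ent_flip hg, sgn_add, Complex.ofReal_mul, sgn_sgf _ _ hg, sgn_sgf _ _ hg]
  · rw [pp_flip_bad t k hks (Nat.le_add_right _ _) hkk hg, sgf_bad _ _ hg, sgf_bad _ _ hg]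
    simp [sgn]

lemma XM_ll {N l0 l L M q : ℕ} {x : Fin N → Fin N → FF} (hx : ∀ i j, Lev l0 (x i j))
    (hdim : ∀ k < KK l L, nsp (parf l L) (KK l L) M k ≤ dd (l + k / nz L))
    (i j : Fin N × Fin (nz L)) :
    LocallyLipschitzOn (TT (mm l L) q ×ˢ YY (nsp (parf l L) (KK l L) M) (KK l L))
      fun p => XM N L x (pp l L M p.1 p.2) i j :=
  ((hx i.1 j.1).fn i.2 j.2).2 ((Fin (mm l L) → ℝ) × YT l L M) _ (fun p => pp l L M p.1 p.2)
    (fun i => ppu_ll _ (fun _ hp => hp.1) i) (fun l' s => ppy_ll hdim _ (fun _ hp => hp.2) l' s)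

end

end Pool.Agent.Y232.RK
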